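import Pool.Agent.U618.MV3.E

set_option autoImplicit false

namespace Pool.Agent.U618.MV3

open Pool.Agent.U398.MV Pool.Agent.U858.MV3 MeasureTheory Filter Topology Set Complex

noncomputable section

/-- the cross term for the linear form -/
lemma cross_sum {T : ℝ} {n : ℕ} {a h : Fin n → ℝ} (ha : ∑ i, |a i| ≤ 1) (X : ℕ) (α : ℕ → ℂ)
    (k : ℕ) {b : ℝ} (hb : 0 ≤ b)
    (hi : ∀ i, IntervalIntegrable (fun t => (Ap X α t).im ^ (2 * k + 1) * er X (t + h i)) volume
      T (2 * T))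
    (hB : ∀ i, |∫ t in T..(2 * T), (Ap X α t).im ^ (2 * k + 1) * er X (t + h i)| ≤ b) :
    IntervalIntegrable (fun t => (1 / Real.pi * (Ap X α t).im) ^ (2 * k + 1) *
      ∑ i, a i * er X (t + h i)) volume T (2 * T) ∧
    |∫ t in T..(2 * T), (1 / Real.pi * (Ap X α t).im) ^ (2 * k + 1) *
      ∑ i, a i * er X (t + h i)| ≤ b := by
  have e : ∀ t, (1 / Real.pi * (Ap X α t).im) ^ (2 * k + 1) * ∑ i, a i * er X (t + h i) =
      ∑ i, ((1 / Real.pi) ^ (2 * k + 1) * a i) *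
        ((Ap X α t).im ^ (2 * k + 1) * er X (t + h i)) := by
    intro t
    rw [Finset.mul_sum]
    exact Finset.sum_congr rfl fun i _ => by rw [mul_pow]; ring
  have hi' : ∀ i, IntervalIntegrable (fun t => ((1 / Real.pi) ^ (2 * k + 1) * a i) *
        ((Ap X α t).im ^ (2 * k + 1) * er X (t + h i))) volume T (2 * T) :=
    fun i => (hi i).const_mul _
  constructor
  · have := IntervalIntegrable.sum Finset.univ (fun i (_ : i ∈ Finset.univ) => hi' i)
    refine (intervalIntegrable_congr ?_).1 this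
    intro t _
    simp only [Finset.sum_apply]
    exact (e t).symm
  · simp only [e]
    rw [intervalIntegral.integral_finsetSum fun i _ => hi' i]
    refine (Finset.abs_sum_le_sum_abs _ _).trans ?_
    have hpi : |(1 / Real.pi) ^ (2 * k + 1)| ≤ 1 := by
      rw [abs_of_pos (by positivity)]
      apply pow_le_one₀ (by positivity)
      rw [div_le_one Real.pi_pos]
      linarith [Real.pi_gt_three]
    calc ∑ i, |∫ t in T..(2 * T), ((1 / Real.pi) ^ (2 * k + 1) * a i) *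
        ((Ap X α t).im ^ (2 * k + 1) * er X (t + h i))|
        ≤ ∑ i, |a i| * b := by
          refine Finset.sum_le_sum fun i _ => ?_
          rw [intervalIntegral.integral_const_mul, abs_mul, abs_mul]
          have h1 := hB i
          have h2 := abs_nonneg (a i)
          have h3 := abs_nonneg (∫ t in T..(2 * T), (Ap X α t).im ^ (2 * k + 1) * er X (t + h i))
          calc |(1 / Real.pi) ^ (2 * k + 1)| * |a i| *
              |∫ t in T..(2 * T), (Ap X α t).im ^ (2 * k + 1) * er X (t + h i)|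
              ≤ 1 * |a i| * b := by gcongr
            _ = _ := by ring
      _ = (∑ i, |a i|) * b := by rw [Finset.sum_mul]
      _ ≤ 1 * b := by gcongr
      _ = b := one_mul _

theorem t_FIN3 : S_EM2 → S_PM → S_CRX → S_PRS → S_TH3 := by
  intro hEM hPM hCR hPRS k
  obtain ⟨δa, hδa, Ha⟩ := E3 hEM 1 k
  obtain ⟨δb, hδb, Hb⟩ := E3 hEM (2 * k + 1) 0
  obtain ⟨δc, hδc, Hc⟩ := E3 hEM 0 k
  obtain ⟨δd, hδd, Hd⟩ := E3 hEM (2 * k) 0
  obtain ⟨δe, hδe, hδe1, He⟩ := cross1 hEM hCR k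
  obtain ⟨cP, hcP, HP⟩ := hPM (k + 1)
  obtain ⟨cQ, hcQ, HQ⟩ := hPM k
  obtain ⟨c2, hc2, hbin2⟩ := binom2 (2 * k)
  obtain ⟨c1, hc1, hbin1⟩ := binom1 (2 * k)
  obtain ⟨δ, hδ, h1, h2, h3, h4, h5, h6⟩ : ∃ δ : ℝ, 0 < δ ∧ δ ≤ δa ∧ δ ≤ δb ∧ δ ≤ δc ∧ δ ≤ δd ∧
      δ ≤ δe ∧ δ ≤ 1 / (8 * k + 16) := by
    refine ⟨min δa (min δb (min δc (min δd (min δe (1 / (8 * k + 16)))))), by positivity,
      min_le_left _ _, ?_, ?_, ?_, ?_, ?_⟩
    · exact (min_le_right _ _).trans (min_le_left _ _)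
    · exact (min_le_right _ _).trans ((min_le_right _ _).trans (min_le_left _ _))
    · exact (min_le_right _ _).trans ((min_le_right _ _).trans ((min_le_right _ _).trans
        (min_le_left _ _)))
    · exact (min_le_right _ _).trans ((min_le_right _ _).trans ((min_le_right _ _).trans
        ((min_le_right _ _).trans (min_le_left _ _))))
    · exact (min_le_right _ _).trans ((min_le_right _ _).trans ((min_le_right _ _).trans
        ((min_le_right _ _).trans (min_le_right _ _))))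
  obtain ⟨Ca, Ta, hCa, hTa, Ga⟩ := Ha δ hδ h1
  obtain ⟨Cb, Tb, hCb, hTb, Gb⟩ := Hb δ hδ h2
  obtain ⟨Cc, Tc, hCc, hTc, Gc⟩ := Hc δ hδ h3
  obtain ⟨Cd, Td, hCd, hTd, Gd⟩ := Hd δ hδ h4
  obtain ⟨Ce, Te, hCe, hTe, Ge⟩ := He δ hδ h5
  obtain ⟨Cv, Tv, hCv, hTv, Gv⟩ := var hPRS δ hδ (h5.trans hδe1)
  set M : ℝ := ((2 * k + 2).factorial : ℝ) / (2 ^ (k + 1) * ((k + 1).factorial : ℝ)) with hM
  have hM0 : 0 < M := by positivity
  set K1 : ℝ := (cP + (2 * k + 2) * Ce + c2 * (Ca + Cb)) * (21 + 20 * Cv) ^ k +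
    M * ((k + 1) * Cv * (1 + Cv) ^ k) with hK1
  set K2 : ℝ := (cQ + c1 * (Cc + Cd)) * (21 + 20 * Cv) ^ k with hK2
  have hK10 : 0 < K1 := by positivity
  have hK20 : 0 < K2 := by positivity
  refine ⟨K1 + K2, max Ta (max Tb (max Tc (max Td (max Te Tv)))), by positivity,
    le_trans (by linarith) (le_max_left _ _), fun T hT n a h ha hh => ?_⟩
  have uTa : Ta ≤ T := (le_max_left _ _).trans hT
  have hT' : max Tb (max Tc (max Td (max Te Tv))) ≤ T := (le_max_right _ _).trans hT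
  have uTb : Tb ≤ T := (le_max_left _ _).trans hT'
  have hT'' : max Tc (max Td (max Te Tv)) ≤ T := (le_max_right _ _).trans hT'
  have uTc : Tc ≤ T := (le_max_left _ _).trans hT''
  have hT3 : max Td (max Te Tv) ≤ T := (le_max_right _ _).trans hT''
  have uTd : Td ≤ T := (le_max_left _ _).trans hT3
  have hT4 : max Te Tv ≤ T := (le_max_right _ _).trans hT3
  have uTe : Te ≤ T := (le_max_left _ _).trans hT4
  have uTv : Tv ≤ T := (le_max_right _ _).trans hT4
  have hT16 : 16 ≤ T := hTa.trans uTa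
  have hT0 : 0 < T := by linarith
  have hL1 : 1 ≤ Real.log T := by
    have e1 : Real.log 16 ≤ Real.log T := Real.log_le_log (by norm_num) hT16
    have h16 : Real.log 16 = 4 * Real.log 2 := by
      rw [show (16:ℝ) = 2 ^ 4 by norm_num, Real.log_pow]; norm_num
    have := Real.log_two_gt_d9
    linarith
  have hhT : ∀ i, 0 ≤ h i ∧ h i ≤ T := fun i =>
    ⟨(hh i).1, (hh i).2.trans (div_le_self hT0.le (by nlinarith))⟩
  set X := ⌊T ^ δ⌋₊ with hX
  set α := alf a h with hα'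
  have hα : ∀ p, ‖α p‖ ≤ 1 := alf_le a h ha
  have hXp : (X : ℝ) ^ (8 * (k + 1) + 8) ≤ T := by
    have : δ * ((8 * (k + 1) + 8 : ℕ) : ℝ) ≤ 1 := by
      rw [le_div_iff₀ (by positivity)] at h6
      push_cast; linarith
    have h7 := X_pow_le (T := T) (by linarith) _ this
    rwa [Real.rpow_one] at h7
  have hXq : (X : ℝ) ^ (8 * k + 8) ≤ T := by
    have : δ * ((8 * k + 8 : ℕ) : ℝ) ≤ 1 := by
      rw [le_div_iff₀ (by positivity)] at h6
      push_cast; nlinarith
    have h7 := X_pow_le (T := T) (by linarith) _ this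
    rwa [Real.rpow_one] at h7
  obtain ⟨p1, -, -⟩ := HP T X α hT16 hXp hα
  obtain ⟨-, q1, -⟩ := HQ T X α hT16 hXq hα
  obtain ⟨a1, a2⟩ := Ga T uTa α hα n a h ha hhT
  obtain ⟨b1, b2⟩ := Gb T uTb α hα n a h ha hhT
  obtain ⟨g1, g2⟩ := Gc T uTc α hα n a h ha hhT
  obtain ⟨d1, d2⟩ := Gd T uTd α hα n a h ha hhT
  have e1 := fun i => Ge T uTe α hα (h i) (hh i).1 (hh i).2
  have v1 := Gv T uTv n a h ha
  set V := Vq X α with hV
  have hV0 : 0 ≤ V := Vq_nonneg _ _
  set w := Vh T a h with hw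
  set v := V / (2 * Real.pi ^ 2) with hv
  obtain ⟨r1, r2⟩ := cmp_pow (w := w) k hCv hV0 hv v1
  -- the cross term
  obtain ⟨x1, x2⟩ := cross_sum (T := T) (a := a) (h := h) ha X α k
    (b := Ce * T * (1 + V) ^ k) (by positivity) (fun i => (e1 i).1) (fun i => (e1 i).2)
  set P : ℝ → ℝ := fun t => 1 / Real.pi * (Ap X α t).im with hP
  set E : ℝ → ℝ := fun t => ∑ i, a i * er X (t + h i) with hE
  have hPc : Continuous P := continuous_const.mul (Complex.continuous_im.comp (continuous_Ap X α))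
  have hEm : AEStronglyMeasurable E volume :=
    Finset.aestronglyMeasurable_fun_sum _ fun i _ => (aesm_er hEM X (h i)).const_mul _
  have hPN : ∀ t, |P t| ≤ ‖Ap X α t‖ := by
    intro t
    simp only [hP]
    rw [abs_mul, abs_of_pos (by positivity : (0:ℝ) < 1 / Real.pi)]
    have i1 : 1 / Real.pi ≤ 1 := by
      rw [div_le_one Real.pi_pos]; linarith [Real.pi_gt_three]
    have i2 := Complex.abs_im_le_norm (Ap X α t)
    have i3 := abs_nonneg (Ap X α t).im
    calc 1 / Real.pi * |(Ap X α t).im| ≤ 1 * ‖Ap X α t‖ := by gcongr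
      _ = _ := one_mul _
  have hPE : ∀ t, ∑ i, a i * pS (t + h i) = P t + E t := by
    intro t
    simp only [hP, hE]
    rw [← sum_Pp, ← Finset.sum_add_distrib]
    refine Finset.sum_congr rfl fun i _ => ?_
    unfold er; ring
  have hVk : V ^ k ≤ (1 + V) ^ k := pow_le_pow_left₀ hV0 (by linarith) _
  have h1V : (1:ℝ) ≤ (1 + V) ^ k := one_le_pow₀ (by linarith)
  -- moments of P
  have pm : |(∫ t in T..(2 * T), P t ^ (2 * (k + 1))) - T * (M * v ^ (k + 1))| ≤
      cP * T * (1 + V) ^ k := by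
    have i1 : ∫ t in T..(2 * T), P t ^ (2 * (k + 1)) = (1 / Real.pi) ^ (2 * (k + 1)) *
        ∫ t in T..(2 * T), (Ap X α t).im ^ (2 * (k + 1)) := by
      rw [← intervalIntegral.integral_const_mul]
      simp only [hP, mul_pow]
    have i2 : T * (M * v ^ (k + 1)) = (1 / Real.pi) ^ (2 * (k + 1)) *
        (T * (((2 * (k + 1)).factorial : ℝ) / (((k + 1).factorial : ℝ) * 4 ^ (k + 1))) *
          V ^ (k + 1)) := by
      rw [hM, hv, div_pow, mul_pow, ← pow_mul, one_div, inv_pow]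
      have : (4:ℝ) ^ (k + 1) = 2 ^ (k + 1) * 2 ^ (k + 1) := by
        rw [← mul_pow]; norm_num
      rw [this, show 2 * (k + 1) = 2 * k + 2 by ring]
      field_simp
    rw [i1, i2, ← mul_sub, abs_mul]
    have i3 : |(1 / Real.pi) ^ (2 * (k + 1))| ≤ 1 := by
      rw [abs_of_pos (by positivity)]
      apply pow_le_one₀ (by positivity)
      rw [div_le_one Real.pi_pos]
      linarith [Real.pi_gt_three]
    have i4 := p1
    rw [Nat.add_sub_cancel] at i4
    calc _ ≤ 1 * (cP * T * (1 + V) ^ k) := by gcongr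
      _ = _ := one_mul _
  have qm : |∫ t in T..(2 * T), P t ^ (2 * k + 1)| ≤ cQ * T * (1 + V) ^ k := by
    have i1 : ∫ t in T..(2 * T), P t ^ (2 * k + 1) = (1 / Real.pi) ^ (2 * k + 1) *
        ∫ t in T..(2 * T), (Ap X α t).im ^ (2 * k + 1) := by
      rw [← intervalIntegral.integral_const_mul]
      simp only [hP, mul_pow]
    rw [i1, abs_mul]
    have i3 : |(1 / Real.pi) ^ (2 * k + 1)| ≤ 1 := by
      rw [abs_of_pos (by positivity)]
      apply pow_le_one₀ (by positivity)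
      rw [div_le_one Real.pi_pos]
      linarith [Real.pi_gt_three]
    calc _ ≤ 1 * (cQ * T) := by gcongr
      _ = cQ * T * 1 := by ring
      _ ≤ _ := by gcongr
  constructor
  · have key := even_int hT0 k hc2 hbin2 hPc hEm hPN x1 a1 b1 pm x2 a2 b2
    have k1 : |(∫ t in T..(2 * T), (∑ i, a i * pS (t + h i)) ^ (2 * k + 2)) -
        T * (M * v ^ (k + 1))| ≤ (cP + (2 * k + 2) * Ce + c2 * (Ca + Cb)) * T * (1 + V) ^ k := by
      simp only [hPE]
      refine key.trans ?_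
      rw [pow_zero]
      have j1 : Ca * T * (1 + V) ^ k ≤ Ca * T * (1 + V) ^ k := le_rfl
      have j2 : Cb * T * 1 ≤ Cb * T * (1 + V) ^ k := by gcongr
      have j3 := mul_le_mul_of_nonneg_left (add_le_add j1 j2) hc2.le
      push_cast
      calc _ ≤ cP * T * (1 + V) ^ k + (2 * (k:ℝ) + 2) * (Ce * T * (1 + V) ^ k) +
          c2 * (Ca * T * (1 + V) ^ k + Cb * T * (1 + V) ^ k) := by linarith
        _ = _ := by ring
    have k2 : |1 / T * (∫ t in T..(2 * T), (∑ i, a i * pS (t + h i)) ^ (2 * k + 2)) -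
        M * v ^ (k + 1)| ≤ (cP + (2 * k + 2) * Ce + c2 * (Ca + Cb)) * (1 + V) ^ k := by
      have j1 : 1 / T * (∫ t in T..(2 * T), (∑ i, a i * pS (t + h i)) ^ (2 * k + 2)) -
        M * v ^ (k + 1) = 1 / T * ((∫ t in T..(2 * T), (∑ i, a i * pS (t + h i)) ^ (2 * k + 2)) -
        T * (M * v ^ (k + 1))) := by field_simp
      rw [j1, abs_mul, abs_of_pos (by positivity : (0:ℝ) < 1 / T)]
      calc _ ≤ 1 / T * ((cP + (2 * k + 2) * Ce + c2 * (Ca + Cb)) * T * (1 + V) ^ k) := by gcongr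
        _ = _ := by field_simp
    have k3 : |M * v ^ (k + 1) - M * w ^ (k + 1)| ≤
        M * ((k + 1) * Cv * (1 + Cv) ^ k) * (1 + |w|) ^ k := by
      rw [← mul_sub, abs_mul, abs_of_pos hM0]
      calc _ ≤ M * ((k + 1) * Cv * (1 + Cv) ^ k * (1 + |w|) ^ k) := by gcongr
        _ = _ := by ring
    have k4 : (cP + (2 * k + 2) * Ce + c2 * (Ca + Cb)) * (1 + V) ^ k ≤
        (cP + (2 * k + 2) * Ce + c2 * (Ca + Cb)) * ((21 + 20 * Cv) ^ k * (1 + |w|) ^ k) := by
      gcongr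
    have k5 : 0 ≤ K2 * (1 + |w|) ^ k := by positivity
    have k6 : 1 / T * (∫ t in T..(2 * T), (∑ i, a i * pS (t + h i)) ^ (2 * k + 2)) -
        M * w ^ (k + 1) = (1 / T * (∫ t in T..(2 * T), (∑ i, a i * pS (t + h i)) ^ (2 * k + 2)) -
        M * v ^ (k + 1)) + (M * v ^ (k + 1) - M * w ^ (k + 1)) := by ring
    rw [k6]
    refine (abs_add_le _ _).trans ?_
    calc _ ≤ (cP + (2 * k + 2) * Ce + c2 * (Ca + Cb)) * ((21 + 20 * Cv) ^ k * (1 + |w|) ^ k) +
        M * ((k + 1) * Cv * (1 + Cv) ^ k) * (1 + |w|) ^ k := add_le_add (k2.trans k4) k3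
      _ = K1 * (1 + |w|) ^ k := by rw [hK1]; ring
      _ ≤ _ := by rw [add_mul]; linarith
  · have key := odd_int hT0 k hc1 hbin1 hPc hEm hPN g1 d1 qm g2 d2
    have k1 : |∫ t in T..(2 * T), (∑ i, a i * pS (t + h i)) ^ (2 * k + 1)| ≤
        (cQ + c1 * (Cc + Cd)) * T * (1 + V) ^ k := by
      simp only [hPE]
      refine key.trans ?_
      rw [pow_zero]
      have j1 : Cc * T * (1 + V) ^ k ≤ Cc * T * (1 + V) ^ k := le_rfl
      have j2 : Cd * T * 1 ≤ Cd * T * (1 + V) ^ k := by gcongr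
      have j3 := mul_le_mul_of_nonneg_left (add_le_add j1 j2) hc1.le
      calc _ ≤ cQ * T * (1 + V) ^ k + c1 * (Cc * T * (1 + V) ^ k + Cd * T * (1 + V) ^ k) := by
            linarith
        _ = _ := by ring
    rw [abs_mul, abs_of_pos (by positivity : (0:ℝ) < 1 / T)]
    have k4 : (cQ + c1 * (Cc + Cd)) * (1 + V) ^ k ≤
        (cQ + c1 * (Cc + Cd)) * ((21 + 20 * Cv) ^ k * (1 + |w|) ^ k) := by
      gcongr
    have k5 : 0 ≤ K1 * (1 + |w|) ^ k := by positivity
    calc _ ≤ 1 / T * ((cQ + c1 * (Cc + Cd)) * T * (1 + V) ^ k) := by gcongr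
      _ = (cQ + c1 * (Cc + Cd)) * (1 + V) ^ k := by field_simp
      _ ≤ _ := k4
      _ = K2 * (1 + |w|) ^ k := by rw [hK2]; ring
      _ ≤ _ := by rw [add_mul]; linarith

end

end Pool.Agent.U618.MV3
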