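import Pool.Agent.U398.MV.Stm3

set_option autoImplicit false

namespace Pool.Agent.U618.MV3

open Pool.Agent.U398.MV MeasureTheory Filter Topology Set Complex

noncomputable section

/-! ### Part 1: elementary inequalities -/

lemma mul_pow_aux (x y : ℝ) (n : ℕ) (hn : 1 ≤ n) :
    |x| * |y| ^ n ≤ |x| ^ n * |y| + |y| ^ (n + 1) := by
  have hx := abs_nonneg x
  have hy := abs_nonneg y
  obtain ⟨n, rfl⟩ : ∃ m, n = m + 1 := ⟨n - 1, by omega⟩
  rcases le_total |y| |x| with h | h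
  · have h1 : |x| * |y| ^ (n + 1) ≤ |x| ^ (n + 1) * |y| := by
      have : |y| ^ n ≤ |x| ^ n := pow_le_pow_left₀ hy h n
      calc |x| * |y| ^ (n + 1) = |x| * |y| * |y| ^ n := by ring
        _ ≤ |x| * |y| * |x| ^ n := by gcongr
        _ = _ := by ring
    have : 0 ≤ |y| ^ (n + 1 + 1) := by positivity
    linarith
  · have h1 : |x| * |y| ^ (n + 1) ≤ |y| ^ (n + 1 + 1) := by
      calc |x| * |y| ^ (n + 1) ≤ |y| * |y| ^ (n + 1) := by gcongr
        _ = _ := by ring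
    have : 0 ≤ |x| ^ (n + 1) * |y| := by positivity
    linarith

lemma mul_pow_aux2 (x y : ℝ) (n : ℕ) :
    |x| * |y| ^ (n + 2) ≤ |x| ^ (n + 1) * |y| ^ 2 + |y| ^ (n + 3) := by
  have hx := abs_nonneg x
  have hy := abs_nonneg y
  have := mul_le_mul_of_nonneg_right (mul_pow_aux x y (n + 1) (by omega)) hy
  calc |x| * |y| ^ (n + 2) = |x| * |y| ^ (n + 1) * |y| := by ring
    _ ≤ _ := this
    _ = _ := by ring

lemma mul_pow_aux3 (x y : ℝ) (n : ℕ) :
    |y| * (|x| ^ n * |y| ^ 2) ≤ |x| ^ (n + 1) * |y| ^ 2 + |y| ^ (n + 3) := by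
  have hx := abs_nonneg x
  have hy := abs_nonneg y
  rcases le_total |y| |x| with h | h
  · have h1 : |y| * (|x| ^ n * |y| ^ 2) ≤ |x| ^ (n + 1) * |y| ^ 2 := by
      calc |y| * (|x| ^ n * |y| ^ 2) ≤ |x| * (|x| ^ n * |y| ^ 2) := by gcongr
        _ = _ := by ring
    have : 0 ≤ |y| ^ (n + 3) := by positivity
    linarith
  · have h1 : |y| * (|x| ^ n * |y| ^ 2) ≤ |y| ^ (n + 3) := by
      have : |x| ^ n ≤ |y| ^ n := pow_le_pow_left₀ hx h n
      calc |y| * (|x| ^ n * |y| ^ 2) ≤ |y| * (|y| ^ n * |y| ^ 2) := by gcongr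
        _ = _ := by ring
    have : 0 ≤ |x| ^ (n + 1) * |y| ^ 2 := by positivity
    linarith

lemma mul_pow_aux4 (x y : ℝ) (n : ℕ) :
    |y| * (|x| ^ n * |y|) ≤ |x| ^ (n + 1) * |y| + |y| ^ (n + 2) := by
  have hx := abs_nonneg x
  have hy := abs_nonneg y
  rcases le_total |y| |x| with h | h
  · have h1 : |y| * (|x| ^ n * |y|) ≤ |x| ^ (n + 1) * |y| := by
      calc |y| * (|x| ^ n * |y|) ≤ |x| * (|x| ^ n * |y|) := by gcongr
        _ = _ := by ring
    have : 0 ≤ |y| ^ (n + 2) := by positivity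
    linarith
  · have h1 : |y| * (|x| ^ n * |y|) ≤ |y| ^ (n + 2) := by
      have : |x| ^ n ≤ |y| ^ n := pow_le_pow_left₀ hx h n
      calc |y| * (|x| ^ n * |y|) ≤ |y| * (|y| ^ n * |y|) := by gcongr
        _ = _ := by ring
    have : 0 ≤ |x| ^ (n + 1) * |y| := by positivity
    linarith

/-- second order binomial inequality -/
lemma binom2 (n : ℕ) : ∃ c : ℝ, 0 < c ∧ ∀ x y : ℝ,
    |(x + y) ^ (n + 2) - x ^ (n + 2) - ((n + 2 : ℕ) : ℝ) * x ^ (n + 1) * y| ≤
      c * (|x| ^ n * |y| ^ 2 + |y| ^ (n + 2)) := by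
  induction n with
  | zero =>
    refine ⟨1, one_pos, fun x y => ?_⟩
    have : (x + y) ^ (0 + 2) - x ^ (0 + 2) - ((0 + 2 : ℕ) : ℝ) * x ^ (0 + 1) * y = y ^ 2 := by
      push_cast; ring
    rw [this, abs_pow]
    have : 0 ≤ |y| ^ 2 := by positivity
    simp only [pow_zero, one_mul, zero_add]
    linarith
  | succ n ih =>
    obtain ⟨c, hc, h⟩ := ih
    refine ⟨(n + 2) + 3 * c, by positivity, fun x y => ?_⟩
    set R := (x + y) ^ (n + 2) - x ^ (n + 2) - ((n + 2 : ℕ) : ℝ) * x ^ (n + 1) * y with hR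
    have e : (x + y) ^ (n + 1 + 2) - x ^ (n + 1 + 2) - ((n + 1 + 2 : ℕ) : ℝ) * x ^ (n + 1 + 1) * y =
        ((n : ℝ) + 2) * (x ^ (n + 1) * y ^ 2) + (x + y) * R := by
      rw [hR]; push_cast; ring
    rw [e]
    have hx := abs_nonneg x
    have hy := abs_nonneg y
    have h1 : |((n : ℝ) + 2) * (x ^ (n + 1) * y ^ 2)| = ((n : ℝ) + 2) * (|x| ^ (n + 1) * |y| ^ 2) := by
      rw [abs_mul, abs_mul, abs_pow, abs_pow, abs_of_nonneg (by positivity : (0:ℝ) ≤ (n : ℝ) + 2)]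
    have h2 : |(x + y) * R| ≤ (|x| + |y|) * (c * (|x| ^ n * |y| ^ 2 + |y| ^ (n + 2))) := by
      rw [abs_mul]
      exact mul_le_mul (abs_add_le x y) (h x y) (abs_nonneg _) (by positivity)
    have h3 := mul_pow_aux2 x y n
    have h4 := mul_pow_aux3 x y n
    have h5 : |x| * (|x| ^ n * |y| ^ 2) = |x| ^ (n + 1) * |y| ^ 2 := by ring
    have h6 : |y| * |y| ^ (n + 2) = |y| ^ (n + 3) := by ring
    have h7 : (|x| + |y|) * (|x| ^ n * |y| ^ 2 + |y| ^ (n + 2)) ≤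
        3 * (|x| ^ (n + 1) * |y| ^ 2 + |y| ^ (n + 3)) := by
      have a1 : 0 ≤ |x| ^ (n + 1) * |y| ^ 2 := by positivity
      have a2 : 0 ≤ |y| ^ (n + 3) := by positivity
      nlinarith [h3, h4, h5, h6]
    have h8 : 0 ≤ |y| ^ (n + 3) := by positivity
    calc |((n : ℝ) + 2) * (x ^ (n + 1) * y ^ 2) + (x + y) * R|
        ≤ |((n : ℝ) + 2) * (x ^ (n + 1) * y ^ 2)| + |(x + y) * R| := abs_add_le _ _
      _ ≤ ((n : ℝ) + 2) * (|x| ^ (n + 1) * |y| ^ 2) +
          c * ((|x| + |y|) * (|x| ^ n * |y| ^ 2 + |y| ^ (n + 2))) := by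
          rw [h1]; linarith
      _ ≤ ((n : ℝ) + 2) * (|x| ^ (n + 1) * |y| ^ 2) +
          c * (3 * (|x| ^ (n + 1) * |y| ^ 2 + |y| ^ (n + 3))) := by gcongr
      _ ≤ _ := by
          have a3 : 0 ≤ ((n : ℝ) + 2) * |y| ^ (n + 3) := by positivity
          have e1 : |x| ^ (n + 1) * |y| ^ 2 + |y| ^ (n + 1 + 2) =
            |x| ^ (n + 1) * |y| ^ 2 + |y| ^ (n + 3) := by ring
          rw [e1]
          nlinarith

/-- first order binomial inequality -/
lemma binom1 (n : ℕ) : ∃ c : ℝ, 0 < c ∧ ∀ x y : ℝ,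
    |(x + y) ^ (n + 1) - x ^ (n + 1)| ≤ c * (|x| ^ n * |y| + |y| ^ (n + 1)) := by
  induction n with
  | zero =>
    refine ⟨1, one_pos, fun x y => ?_⟩
    have : (x + y) ^ (0 + 1) - x ^ (0 + 1) = y := by ring
    rw [this]
    simp only [pow_zero, one_mul, zero_add, pow_one]
    linarith [abs_nonneg y]
  | succ n ih =>
    obtain ⟨c, hc, h⟩ := ih
    refine ⟨1 + 3 * c, by positivity, fun x y => ?_⟩
    set R := (x + y) ^ (n + 1) - x ^ (n + 1) with hR
    have e : (x + y) ^ (n + 1 + 1) - x ^ (n + 1 + 1) = x ^ (n + 1) * y + (x + y) * R := by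
      rw [hR]; ring
    rw [e]
    have hx := abs_nonneg x
    have hy := abs_nonneg y
    have h1 : |x ^ (n + 1) * y| = |x| ^ (n + 1) * |y| := by
      rw [abs_mul, abs_pow]
    have h2 : |(x + y) * R| ≤ (|x| + |y|) * (c * (|x| ^ n * |y| + |y| ^ (n + 1))) := by
      rw [abs_mul]
      exact mul_le_mul (abs_add_le x y) (h x y) (abs_nonneg _) (by positivity)
    have h3 := mul_pow_aux x y (n + 1) (by omega)
    have h4 := mul_pow_aux4 x y n
    have h5 : |x| * (|x| ^ n * |y|) = |x| ^ (n + 1) * |y| := by ring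
    have h6 : |y| * |y| ^ (n + 1) = |y| ^ (n + 2) := by ring
    have h7 : (|x| + |y|) * (|x| ^ n * |y| + |y| ^ (n + 1)) ≤
        3 * (|x| ^ (n + 1) * |y| + |y| ^ (n + 2)) := by
      have a1 : 0 ≤ |x| ^ (n + 1) * |y| := by positivity
      have a2 : 0 ≤ |y| ^ (n + 2) := by positivity
      nlinarith [h3, h4, h5, h6]
    have h8 : 0 ≤ |y| ^ (n + 2) := by positivity
    calc |x ^ (n + 1) * y + (x + y) * R|
        ≤ |x ^ (n + 1) * y| + |(x + y) * R| := abs_add_le _ _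
      _ ≤ |x| ^ (n + 1) * |y| +
          c * ((|x| + |y|) * (|x| ^ n * |y| + |y| ^ (n + 1))) := by
          rw [h1]; linarith
      _ ≤ |x| ^ (n + 1) * |y| +
          c * (3 * (|x| ^ (n + 1) * |y| + |y| ^ (n + 2))) := by gcongr
      _ ≤ _ := by
          have e1 : |x| ^ (n + 1) * |y| + |y| ^ (n + 1 + 1) =
            |x| ^ (n + 1) * |y| + |y| ^ (n + 2) := by ring
          rw [e1]
          nlinarith

/-- Jensen -/
lemma jensen {n : ℕ} (a : Fin n → ℝ) (ha : ∑ i, |a i| ≤ 1) (z : Fin n → ℝ) (m : ℕ) :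
    |∑ i, a i * z i| ^ (m + 1) ≤ ∑ i, |a i| * |z i| ^ (m + 1) := by
  have h0 : |∑ i, a i * z i| ≤ ∑ i, |a i| * |z i| := by
    refine (Finset.abs_sum_le_sum_abs _ _).trans (le_of_eq ?_)
    exact Finset.sum_congr rfl fun i _ => abs_mul _ _
  set W := ∑ i, |a i| with hW
  have hW0 : 0 ≤ W := Finset.sum_nonneg fun i _ => abs_nonneg _
  rcases hW0.eq_or_lt with h | h
  · have hz : ∀ i, |a i| = 0 := by
      intro i
      have := (Finset.sum_eq_zero_iff_of_nonneg (fun i _ => abs_nonneg (a i))).1 h.symm i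
        (Finset.mem_univ i)
      exact this
    have : |∑ i, a i * z i| = 0 := by
      apply le_antisymm _ (abs_nonneg _)
      refine h0.trans (le_of_eq ?_)
      exact Finset.sum_eq_zero fun i _ => by rw [hz i, zero_mul]
    rw [this]
    rw [zero_pow (by omega)]
    exact Finset.sum_nonneg fun i _ => by positivity
  · have h1 := Real.pow_arith_mean_le_arith_mean_pow Finset.univ (fun i => |a i| / W)
      (fun i => |z i|) (fun i _ => by positivity) (by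
        rw [← Finset.sum_div]; exact div_self h.ne') (fun i _ => abs_nonneg _) (m + 1)
    have h2 : ∑ i, |a i| / W * |z i| = (∑ i, |a i| * |z i|) / W := by
      rw [Finset.sum_div]; exact Finset.sum_congr rfl fun i _ => by ring
    have h3 : ∑ i, |a i| / W * |z i| ^ (m + 1) = (∑ i, |a i| * |z i| ^ (m + 1)) / W := by
      rw [Finset.sum_div]; exact Finset.sum_congr rfl fun i _ => by ring
    simp only [h2, h3] at h1
    have hS : 0 ≤ ∑ i, |a i| * |z i| ^ (m + 1) := Finset.sum_nonneg fun i _ => by positivity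
    calc |∑ i, a i * z i| ^ (m + 1) ≤ (∑ i, |a i| * |z i|) ^ (m + 1) :=
          pow_le_pow_left₀ (abs_nonneg _) h0 _
      _ = ((∑ i, |a i| * |z i|) / W) ^ (m + 1) * W ^ (m + 1) := by
          rw [← mul_pow, div_mul_cancel₀ _ h.ne']
      _ ≤ ((∑ i, |a i| * |z i| ^ (m + 1)) / W) * W ^ (m + 1) := by gcongr
      _ = (∑ i, |a i| * |z i| ^ (m + 1)) * W ^ m := by
          rw [pow_succ]; field_simp
      _ ≤ (∑ i, |a i| * |z i| ^ (m + 1)) * 1 := by
          gcongr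
          exact pow_le_one₀ hW0 ha
      _ = _ := mul_one _

/-! ### Part 2: rotations of the coefficients -/

/-- the coefficients of the translate -/
def rot (s : ℝ) (α : ℕ → ℂ) : ℕ → ℂ := fun p => α p * (p : ℂ) ^ (-(s * I))

lemma norm_cpow_I_of_pos {p : ℕ} (hp : 0 < p) (s : ℝ) : ‖(p : ℂ) ^ (-(s * I))‖ = 1 := by
  rw [Complex.norm_natCast_cpow_of_pos hp]; simp

lemma norm_cpow_I_le (p : ℕ) (s : ℝ) : ‖(p : ℂ) ^ (-(s * I))‖ ≤ 1 := by
  rcases Nat.eq_zero_or_pos p with rfl | hp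
  · rw [Nat.cast_zero]
    by_cases h : (-(s * I) : ℂ) = 0
    · rw [h]; simp
    · rw [Complex.zero_cpow h]; simp
  · exact (norm_cpow_I_of_pos hp s).le

lemma rot_le {α : ℕ → ℂ} (h : ∀ p, ‖α p‖ ≤ 1) (s : ℝ) (p : ℕ) : ‖rot s α p‖ ≤ 1 := by
  unfold rot
  rw [norm_mul]
  exact mul_le_one₀ (h p) (norm_nonneg _) (norm_cpow_I_le p s)

lemma Vq_rot (X : ℕ) (α : ℕ → ℂ) (s : ℝ) : Vq X (rot s α) = Vq X α := by
  unfold Vq rot
  refine Finset.sum_congr rfl fun p hp => ?_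
  rw [norm_mul, norm_cpow_I_of_pos (Finset.mem_filter.1 hp).2.pos, mul_one]

lemma Ap_add (X : ℕ) (α : ℕ → ℂ) (t s : ℝ) : Ap X α (t + s) = Ap X (rot s α) t := by
  unfold Ap rot
  refine Finset.sum_congr rfl fun p hp => ?_
  have hp0 : (p : ℂ) ≠ 0 := Nat.cast_ne_zero.2 (Finset.mem_filter.1 hp).2.pos.ne'
  rw [mul_assoc, ← Complex.cpow_add _ _ hp0]
  congr 2
  push_cast; ring

lemma Vq_nonneg (X : ℕ) (α : ℕ → ℂ) : 0 ≤ Vq X α :=
  Finset.sum_nonneg fun p _ => by positivity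

lemma continuous_Ap (X : ℕ) (α : ℕ → ℂ) : Continuous (Ap X α) := by
  unfold Ap
  refine continuous_finsetSum _ fun p hp => ?_
  have hp0 : (p : ℂ) ≠ 0 := Nat.cast_ne_zero.2 (Finset.mem_filter.1 hp).2.pos.ne'
  refine continuous_const.mul ?_
  refine Continuous.const_cpow (by fun_prop) (Or.inl hp0)

/-- the coefficients of the linear form -/
def alf {n : ℕ} (a h : Fin n → ℝ) : ℕ → ℂ := fun p => ∑ i, (a i : ℂ) * (p : ℂ) ^ (-(h i * I))

lemma alf_le {n : ℕ} (a h : Fin n → ℝ) (ha : ∑ i, |a i| ≤ 1) (p : ℕ) : ‖alf a h p‖ ≤ 1 := by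
  unfold alf
  refine (norm_sum_le _ _).trans (le_trans (Finset.sum_le_sum fun i _ => ?_) ha)
  rw [norm_mul, Complex.norm_real, Real.norm_eq_abs]
  calc |a i| * ‖(p : ℂ) ^ (-(h i * I))‖ ≤ |a i| * 1 := by
        gcongr; exact norm_cpow_I_le p (h i)
    _ = _ := mul_one _

lemma sum_Pp {n : ℕ} (X : ℕ) (a h : Fin n → ℝ) (t : ℝ) :
    ∑ i, a i * Pp X (t + h i) = 1 / Real.pi * (Ap X (alf a h) t).im := by
  have h1 : Ap X (alf a h) t = ∑ i, (a i : ℂ) * Ap X (fun _ => 1) (t + h i) := by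
    simp_rw [Ap_add]
    unfold Ap alf rot
    simp_rw [Finset.mul_sum, Finset.sum_mul]
    rw [Finset.sum_comm]
    refine Finset.sum_congr rfl fun i _ => Finset.sum_congr rfl fun p _ => by ring
  rw [h1, Complex.im_sum, Finset.mul_sum]
  refine Finset.sum_congr rfl fun i _ => ?_
  rw [Complex.im_ofReal_mul]
  unfold Pp
  ring

end

end Pool.Agent.U618.MV3
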