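import Pool.Agent.U618.MV3.A
import Pool.Agent.U858.MV3.Stm

set_option autoImplicit false

namespace Pool.Agent.U618.MV3

open Pool.Agent.U398.MV Pool.Agent.U858.MV3 MeasureTheory Filter Topology Set Complex

noncomputable section

/-- the error of the prime approximation -/
def er (X : ℕ) (t : ℝ) : ℝ := pS t - Pp X t

lemma X_pow_le {T δ : ℝ} (hT : 1 ≤ T) (n : ℕ) {c : ℝ} (h : δ * n ≤ c) :
    ((⌊T ^ δ⌋₊ : ℕ) : ℝ) ^ n ≤ T ^ c := by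
  have h1 : ((⌊T ^ δ⌋₊ : ℕ) : ℝ) ≤ T ^ δ := Nat.floor_le (by positivity)
  calc _ ≤ (T ^ δ) ^ n := pow_le_pow_left₀ (by positivity) h1 n
    _ = T ^ (δ * n) := by rw [← Real.rpow_natCast, ← Real.rpow_mul (by linarith)]
    _ ≤ _ := Real.rpow_le_rpow_of_exponent_le hT h

lemma E1 (hEM : S_EM2) (m j : ℕ) : ∃ δ₀ : ℝ, 0 < δ₀ ∧ ∀ δ : ℝ, 0 < δ → δ ≤ δ₀ →
    ∃ C T0 : ℝ, 0 < C ∧ 16 ≤ T0 ∧ ∀ T : ℝ, T0 ≤ T → ∀ α : ℕ → ℂ, (∀ p, ‖α p‖ ≤ 1) →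
    IntervalIntegrable (fun t => |er ⌊T ^ δ⌋₊ t| ^ m * ‖Ap ⌊T ^ δ⌋₊ α t‖ ^ (2 * j)) volume
      (T / 2) (4 * T) ∧
    ∫ t in (T / 2)..(4 * T), |er ⌊T ^ δ⌋₊ t| ^ m * ‖Ap ⌊T ^ δ⌋₊ α t‖ ^ (2 * j) ≤
      C * T * (1 + Vq ⌊T ^ δ⌋₊ α) ^ j := by
  obtain ⟨δ₁, hδ₁, h1⟩ := hEM.2 m j
  refine ⟨δ₁, hδ₁, fun δ hδ hδ' => ?_⟩
  obtain ⟨C, T0, hC, hT0, h2⟩ := h1 δ hδ hδ'
  exact ⟨C, max T0 16, hC, le_max_right _ _, fun T hT α hα =>
    h2 T ((le_max_left _ _).trans hT) α hα⟩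

lemma E2 (hEM : S_EM2) (m j : ℕ) : ∃ δ₀ : ℝ, 0 < δ₀ ∧ ∀ δ : ℝ, 0 < δ → δ ≤ δ₀ →
    ∃ C T0 : ℝ, 0 < C ∧ 16 ≤ T0 ∧ ∀ T : ℝ, T0 ≤ T → ∀ α : ℕ → ℂ, (∀ p, ‖α p‖ ≤ 1) →
    ∀ h : ℝ, 0 ≤ h → h ≤ T →
    IntervalIntegrable (fun t => |er ⌊T ^ δ⌋₊ (t + h)| ^ m * ‖Ap ⌊T ^ δ⌋₊ α t‖ ^ (2 * j)) volume
      T (2 * T) ∧
    ∫ t in T..(2 * T), |er ⌊T ^ δ⌋₊ (t + h)| ^ m * ‖Ap ⌊T ^ δ⌋₊ α t‖ ^ (2 * j) ≤
      C * T * (1 + Vq ⌊T ^ δ⌋₊ α) ^ j := by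
  obtain ⟨δ₀, hδ₀, h1⟩ := E1 hEM m j
  refine ⟨δ₀, hδ₀, fun δ hδ hδ' => ?_⟩
  obtain ⟨C, T0, hC, hT0, h2⟩ := h1 δ hδ hδ'
  refine ⟨C, T0, hC, hT0, fun T hT α hα h hh0 hhT => ?_⟩
  obtain ⟨h3, h4⟩ := h2 T hT (rot (-h) α) (rot_le hα _)
  have hT0' : 0 < T := by linarith
  set X := ⌊T ^ δ⌋₊ with hX
  set f : ℝ → ℝ := fun t => |er X t| ^ m * ‖Ap X (rot (-h) α) t‖ ^ (2 * j) with hf
  have e : (fun t => |er X (t + h)| ^ m * ‖Ap X α t‖ ^ (2 * j)) = fun t => f (t + h) := by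
    funext t
    simp only [hf]
    rw [← Ap_add, add_neg_cancel_right]
  have e' : ∀ t, |er X (t + h)| ^ m * ‖Ap X α t‖ ^ (2 * j) = f (t + h) := fun t => congrFun e t
  rw [Vq_rot] at h4
  constructor
  · rw [e]
    have h5 : IntervalIntegrable f volume (T + h) (2 * T + h) := by
      refine h3.mono_set ?_
      rw [uIcc_of_le (by linarith), uIcc_of_le (by linarith)]
      exact Icc_subset_Icc (by linarith) (by linarith)
    have := h5.comp_add_right h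
    simpa using this
  · simp only [e']
    rw [intervalIntegral.integral_comp_add_right f h]
    refine (intervalIntegral.integral_mono_interval (by linarith) (by linarith) (by linarith) ?_ h3).trans h4
    exact Filter.Eventually.of_forall fun t => by simp only [hf, Pi.zero_apply]; positivity

lemma aesm_er (hEM : S_EM2) (X : ℕ) (h : ℝ) :
    AEStronglyMeasurable (fun t => er X (t + h)) volume := by
  have h1 : Continuous (Pp X) := by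
    unfold Pp
    exact continuous_const.mul (Complex.continuous_im.comp (continuous_Ap X _))
  have h2 : AEStronglyMeasurable (er X) volume := hEM.1.sub h1.aestronglyMeasurable
  exact h2.comp_quasiMeasurePreserving
    (measurePreserving_add_right volume h).quasiMeasurePreserving

lemma E3 (hEM : S_EM2) (m j : ℕ) : ∃ δ₀ : ℝ, 0 < δ₀ ∧ ∀ δ : ℝ, 0 < δ → δ ≤ δ₀ →
    ∃ C T0 : ℝ, 0 < C ∧ 16 ≤ T0 ∧ ∀ T : ℝ, T0 ≤ T → ∀ α : ℕ → ℂ, (∀ p, ‖α p‖ ≤ 1) →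
    ∀ (n : ℕ) (a h : Fin n → ℝ), (∑ i, |a i|) ≤ 1 → (∀ i, 0 ≤ h i ∧ h i ≤ T) →
    IntervalIntegrable (fun t => |∑ i, a i * er ⌊T ^ δ⌋₊ (t + h i)| ^ (m + 1) *
      ‖Ap ⌊T ^ δ⌋₊ α t‖ ^ (2 * j)) volume T (2 * T) ∧
    ∫ t in T..(2 * T), |∑ i, a i * er ⌊T ^ δ⌋₊ (t + h i)| ^ (m + 1) *
      ‖Ap ⌊T ^ δ⌋₊ α t‖ ^ (2 * j) ≤ C * T * (1 + Vq ⌊T ^ δ⌋₊ α) ^ j := by
  obtain ⟨δ₀, hδ₀, h1⟩ := E2 hEM (m + 1) j
  refine ⟨δ₀, hδ₀, fun δ hδ hδ' => ?_⟩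
  obtain ⟨C, T0, hC, hT0, h2⟩ := h1 δ hδ hδ'
  refine ⟨C, T0, hC, hT0, fun T hT α hα n a h ha hh => ?_⟩
  have hT0' : 0 < T := by linarith
  have hTT : T ≤ 2 * T := by linarith
  set X := ⌊T ^ δ⌋₊ with hX
  have hi : ∀ i, IntervalIntegrable (fun t => |er X (t + h i)| ^ (m + 1) *
      ‖Ap X α t‖ ^ (2 * j)) volume T (2 * T) := fun i => (h2 T hT α hα (h i) (hh i).1 (hh i).2).1
  have hb : ∀ i, ∫ t in T..(2 * T), |er X (t + h i)| ^ (m + 1) * ‖Ap X α t‖ ^ (2 * j) ≤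
    C * T * (1 + Vq X α) ^ j := fun i => (h2 T hT α hα (h i) (hh i).1 (hh i).2).2
  have hs : IntervalIntegrable (fun t => ∑ i, |a i| * (|er X (t + h i)| ^ (m + 1) *
      ‖Ap X α t‖ ^ (2 * j))) volume T (2 * T) := by
    have := IntervalIntegrable.sum Finset.univ (fun i (_ : i ∈ Finset.univ) =>
      (hi i).const_mul |a i|)
    refine (intervalIntegrable_congr ?_).1 this
    intro t _
    simp only [Finset.sum_apply]
  have hle : ∀ t, |∑ i, a i * er X (t + h i)| ^ (m + 1) * ‖Ap X α t‖ ^ (2 * j) ≤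
      ∑ i, |a i| * (|er X (t + h i)| ^ (m + 1) * ‖Ap X α t‖ ^ (2 * j)) := by
    intro t
    have := mul_le_mul_of_nonneg_right (jensen a ha (fun i => er X (t + h i)) m)
      (by positivity : (0:ℝ) ≤ ‖Ap X α t‖ ^ (2 * j))
    refine this.trans (le_of_eq ?_)
    rw [Finset.sum_mul]
    exact Finset.sum_congr rfl fun i _ => by ring
  have hint : IntervalIntegrable (fun t => |∑ i, a i * er X (t + h i)| ^ (m + 1) *
      ‖Ap X α t‖ ^ (2 * j)) volume T (2 * T) := by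
    rw [intervalIntegrable_iff_integrableOn_Ioc_of_le hTT] at hs ⊢
    refine Integrable.mono' hs ?_ (Filter.Eventually.of_forall fun t => ?_)
    · refine AEStronglyMeasurable.mul ?_ ?_
      · have : AEStronglyMeasurable (fun t => ∑ i, a i * er X (t + h i)) volume :=
          Finset.aestronglyMeasurable_fun_sum _ fun i _ => (aesm_er hEM X (h i)).const_mul _
        exact (this.restrict.norm.pow (m + 1))
      · exact ((continuous_Ap X α).norm.pow _).aestronglyMeasurable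
    · rw [Real.norm_of_nonneg (by positivity)]
      exact hle t
  refine ⟨hint, ?_⟩
  calc ∫ t in T..(2 * T), |∑ i, a i * er X (t + h i)| ^ (m + 1) * ‖Ap X α t‖ ^ (2 * j)
      ≤ ∫ t in T..(2 * T), ∑ i, |a i| * (|er X (t + h i)| ^ (m + 1) * ‖Ap X α t‖ ^ (2 * j)) :=
        intervalIntegral.integral_mono_on hTT hint hs fun t _ => hle t
    _ = ∑ i, |a i| * ∫ t in T..(2 * T), (|er X (t + h i)| ^ (m + 1) * ‖Ap X α t‖ ^ (2 * j)) := by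
        rw [intervalIntegral.integral_finsetSum fun i _ => (hi i).const_mul _]
        exact Finset.sum_congr rfl fun i _ => intervalIntegral.integral_const_mul _ _
    _ ≤ ∑ i, |a i| * (C * T * (1 + Vq X α) ^ j) := by
        refine Finset.sum_le_sum fun i _ => ?_
        exact mul_le_mul_of_nonneg_left (hb i) (abs_nonneg _)
    _ = (∑ i, |a i|) * (C * T * (1 + Vq X α) ^ j) := by rw [Finset.sum_mul]
    _ ≤ 1 * (C * T * (1 + Vq X α) ^ j) := by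
        have := Vq_nonneg X α
        gcongr
    _ = _ := one_mul _

end

end Pool.Agent.U618.MV3
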