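import Pool.Agent.U618.MV3.B

set_option autoImplicit false

namespace Pool.Agent.U618.MV3

open Pool.Agent.U398.MV Pool.Agent.U858.MV3 MeasureTheory Filter Topology Set Complex

noncomputable section

lemma Vq_le_log {X : ℕ} {α : ℕ → ℂ} (hα : ∀ p, ‖α p‖ ≤ 1) {T : ℝ} (hT : 1 ≤ T)
    (hX : (X : ℝ) ≤ T) : Vq X α ≤ 1 + Real.log T := by
  have h1 : Vq X α ≤ (harmonic X : ℝ) := by
    unfold Vq
    rw [harmonic_eq_sum_Icc]
    push_cast
    calc ∑ p ∈ (Finset.Icc 1 X).filter Nat.Prime, ‖α p‖ ^ 2 / (p : ℝ)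
        ≤ ∑ p ∈ (Finset.Icc 1 X).filter Nat.Prime, ((p : ℝ))⁻¹ := by
          refine Finset.sum_le_sum fun p _ => ?_
          rw [div_eq_mul_inv]
          have : ‖α p‖ ^ 2 ≤ 1 := pow_le_one₀ (norm_nonneg _) (hα p)
          have h2 : (0:ℝ) ≤ (p : ℝ)⁻¹ := by positivity
          nlinarith
      _ ≤ ∑ p ∈ Finset.Icc 1 X, ((p : ℝ))⁻¹ :=
          Finset.sum_le_sum_of_subset_of_nonneg (Finset.filter_subset _ _)
            fun p _ _ => by positivity
  refine h1.trans ((harmonic_le_one_add_log X).trans ?_)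
  rcases Nat.eq_zero_or_pos X with rfl | hX0
  · simp only [Nat.cast_zero, Real.log_zero, add_zero]
    have := Real.log_nonneg hT
    linarith
  · have : Real.log X ≤ Real.log T := Real.log_le_log (by exact_mod_cast hX0) hX
    linarith

lemma amgm (x l : ℝ) (hl : 0 < l) : |x| ≤ l * x ^ 2 + 1 / l := by
  have h1 : 0 ≤ (l * |x| - 1) ^ 2 := sq_nonneg _
  have h2 : x ^ 2 = |x| ^ 2 := (sq_abs x).symm
  rw [h2]
  have h3 : 0 ≤ |x| := abs_nonneg x
  have h4 : l * |x| ^ 2 + 1 / l - |x| = ((l * |x|) ^ 2 - l * |x| + 1) / l := by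
    field_simp
    ring
  have h5 : 0 ≤ ((l * |x|) ^ 2 - l * |x| + 1) / l := by
    apply div_nonneg _ hl.le
    nlinarith [mul_nonneg hl.le h3]
  linarith

lemma cross1 (hEM : S_EM2) (hCR : S_CRX) (k : ℕ) : ∃ δ₀ : ℝ, 0 < δ₀ ∧ δ₀ ≤ 1 ∧
    ∀ δ : ℝ, 0 < δ → δ ≤ δ₀ →
    ∃ C T0 : ℝ, 0 < C ∧ 16 ≤ T0 ∧ ∀ T : ℝ, T0 ≤ T → ∀ α : ℕ → ℂ, (∀ p, ‖α p‖ ≤ 1) →
    ∀ h : ℝ, 0 ≤ h → h ≤ T / (Real.log T) ^ 2 →
    IntervalIntegrable (fun t => (Ap ⌊T ^ δ⌋₊ α t).im ^ (2 * k + 1) * er ⌊T ^ δ⌋₊ (t + h)) volume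
      T (2 * T) ∧
    |∫ t in T..(2 * T), (Ap ⌊T ^ δ⌋₊ α t).im ^ (2 * k + 1) * er ⌊T ^ δ⌋₊ (t + h)| ≤
      C * T * (1 + Vq ⌊T ^ δ⌋₊ α) ^ k := by
  obtain ⟨δ₁, hδ₁, h1⟩ := E1 hEM 2 (2 * k + 1)
  obtain ⟨δ₂, hδ₂, h2⟩ := hCR k
  refine ⟨min 1 (min δ₁ δ₂), by positivity, min_le_left _ _, fun δ hδ hδ' => ?_⟩
  have hd1 : δ ≤ 1 := hδ'.trans (min_le_left _ _)
  obtain ⟨C1, T1, hC1, hT1, h3⟩ := h1 δ hδ (hδ'.trans ((min_le_right _ _).trans (min_le_left _ _)))
  obtain ⟨C2, T2, hC2, hT2, h4⟩ := h2 δ hδ (hδ'.trans ((min_le_right _ _).trans (min_le_right _ _)))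
  refine ⟨C2 + 2 * (2 * C1 + 1), max T1 T2, by positivity, hT1.trans (le_max_left _ _),
    fun T hT α hα h hh0 hhT => ?_⟩
  have hTa : T1 ≤ T := (le_max_left _ _).trans hT
  have hTb : T2 ≤ T := (le_max_right _ _).trans hT
  have hT16 : 16 ≤ T := hT1.trans hTa
  have hT0 : 0 < T := by linarith
  set X := ⌊T ^ δ⌋₊ with hXd
  set L := Real.log T with hL
  have hL2 : 2 ≤ L := by
    have : Real.log 16 ≤ L := Real.log_le_log (by norm_num) hT16
    have h16 : Real.log 16 = 4 * Real.log 2 := by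
      rw [show (16:ℝ) = 2 ^ 4 by norm_num, Real.log_pow]; norm_num
    have := Real.log_two_gt_d9
    linarith
  have hhT' : h ≤ T := by
    refine hhT.trans (div_le_self hT0.le ?_)
    nlinarith
  have hXT : (X : ℝ) ≤ T := by
    have := X_pow_le (T := T) (δ := δ) (c := 1) (by linarith) 1 (by simpa using hd1)
    rwa [Real.rpow_one, pow_one] at this
  set β := rot (-h) α with hβ
  have hβ1 : ∀ p, ‖β p‖ ≤ 1 := rot_le hα _
  obtain ⟨h5, h6⟩ := h3 T hTa β hβ1
  have h7 := h4 T hTb β hβ1
  have hV : Vq X β = Vq X α := Vq_rot X α (-h)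
  rw [hV] at h6 h7
  set V := Vq X α with hVd
  have hV0 : 0 ≤ V := Vq_nonneg _ _
  have hVL : V ≤ 1 + L := Vq_le_log hα (by linarith) hXT
  set G : ℝ → ℝ := fun t => |er X t| ^ 2 * ‖Ap X β t‖ ^ (2 * (2 * k + 1)) with hG
  have hG0 : ∀ t, 0 ≤ G t := fun t => by simp only [hG]; positivity
  set g : ℝ → ℝ := fun t => (Ap X β t).im ^ (2 * k + 1) * er X t with hg
  have hgG : ∀ t, g t ^ 2 ≤ G t := by
    intro t
    simp only [hg, hG]
    rw [mul_pow, ← pow_mul, mul_comm (2 * k + 1) 2, sq_abs, mul_comm]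
    refine mul_le_mul_of_nonneg_left ?_ (sq_nonneg _)
    rw [pow_mul, pow_mul]
    refine pow_le_pow_left₀ (sq_nonneg _) ?_ _
    rw [← sq_abs]
    exact pow_le_pow_left₀ (abs_nonneg _) (Complex.abs_im_le_norm _) 2
  have hgl : ∀ l : ℝ, 0 < l → ∀ t, |g t| ≤ l * G t + 1 / l := fun l hl t =>
    (amgm _ l hl).trans (by have := mul_le_mul_of_nonneg_left (hgG t) hl.le; linarith)
  have hgm : AEStronglyMeasurable g volume := by
    refine AEStronglyMeasurable.mul ?_ ?_
    · exact ((Complex.continuous_im.comp (continuous_Ap X β)).pow _).aestronglyMeasurable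
    · have := aesm_er hEM X 0
      simpa using this
  have hgi : IntervalIntegrable g volume (T / 2) (4 * T) := by
    have h8 : IntervalIntegrable (fun t => 1 * G t + 1 / 1) volume (T / 2) (4 * T) :=
      (h5.const_mul 1).add intervalIntegrable_const
    rw [intervalIntegrable_iff_integrableOn_Ioc_of_le (by linarith)] at h8 ⊢
    refine Integrable.mono' h8 hgm.restrict (Filter.Eventually.of_forall fun t => ?_)
    exact hgl 1 one_pos t
  have hsub : ∀ x y : ℝ, T / 2 ≤ x → x ≤ y → y ≤ 4 * T → IntervalIntegrable g volume x y := by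
    intro x y hx hxy hy
    refine hgi.mono_set ?_
    rw [uIcc_of_le hxy, uIcc_of_le (by linarith)]
    exact Icc_subset_Icc hx hy
  have hsubG : ∀ x y : ℝ, T / 2 ≤ x → x ≤ y → y ≤ 4 * T → IntervalIntegrable G volume x y := by
    intro x y hx hxy hy
    refine h5.mono_set ?_
    rw [uIcc_of_le hxy, uIcc_of_le (by linarith)]
    exact Icc_subset_Icc hx hy
  -- the edges
  have hedge : ∀ c : ℝ, T ≤ c → c ≤ 2 * T → |∫ t in c..(c + h), g t| ≤
      (2 * C1 + 1) * T * (1 + V) ^ k := by
    intro c hc1 hc2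
    set l : ℝ := 1 / (L * (1 + V) ^ k) with hl
    have hl0 : 0 < l := by positivity
    have i1 := hsub c (c + h) (by linarith) (by linarith) (by linarith)
    have i2 := hsubG c (c + h) (by linarith) (by linarith) (by linarith)
    have i3 : ∫ t in c..(c + h), G t ≤ C1 * T * (1 + V) ^ (2 * k + 1) := by
      refine (intervalIntegral.integral_mono_interval (by linarith) (by linarith) (by linarith) ?_ h5).trans h6
      exact Filter.Eventually.of_forall fun t => hG0 t
    calc |∫ t in c..(c + h), g t| ≤ ∫ t in c..(c + h), |g t| :=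
          intervalIntegral.abs_integral_le_integral_abs (by linarith)
      _ ≤ ∫ t in c..(c + h), (l * G t + 1 / l) :=
          intervalIntegral.integral_mono_on (by linarith) i1.abs
            ((i2.const_mul l).add intervalIntegrable_const) fun t _ => hgl l hl0 t
      _ = l * (∫ t in c..(c + h), G t) + h * (1 / l) := by
          rw [intervalIntegral.integral_add (i2.const_mul l) intervalIntegrable_const,
            intervalIntegral.integral_const_mul, intervalIntegral.integral_const]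
          simp
      _ ≤ l * (C1 * T * (1 + V) ^ (2 * k + 1)) + (T / L ^ 2) * (1 / l) := by gcongr
      _ ≤ 2 * C1 * T * (1 + V) ^ k + T * (1 + V) ^ k := by
          apply add_le_add
          · have j1 : (1 + V) ^ (2 * k + 1) ≤ (1 + V) ^ k * (1 + V) ^ k * (2 + L) := by
              calc (1 + V) ^ (2 * k + 1) = (1 + V) ^ k * (1 + V) ^ k * (1 + V) := by ring
                _ ≤ (1 + V) ^ k * (1 + V) ^ k * (2 + L) :=
                    mul_le_mul_of_nonneg_left (by linarith) (by positivity)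
            calc l * (C1 * T * (1 + V) ^ (2 * k + 1))
                ≤ l * (C1 * T * ((1 + V) ^ k * (1 + V) ^ k * (2 + L))) := by gcongr
              _ = C1 * T * (1 + V) ^ k * ((2 + L) / L) := by
                  rw [hl]; field_simp
              _ ≤ C1 * T * (1 + V) ^ k * 2 := by
                  gcongr
                  rw [div_le_iff₀ (by linarith)]; linarith
              _ = _ := by ring
          · have : (T / L ^ 2) * (1 / l) = T * (1 + V) ^ k / L := by
              rw [hl]; field_simp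
            rw [this]
            exact div_le_self (by positivity) (by linarith)
      _ = _ := by ring
  have e : ∀ t, (Ap X α t).im ^ (2 * k + 1) * er X (t + h) = g (t + h) := by
    intro t
    simp only [hg]
    rw [hβ, ← Ap_add, add_neg_cancel_right]
  refine ⟨?_, ?_⟩
  · have h8 := (hsub (T + h) (2 * T + h) (by linarith) (by linarith) (by linarith)).comp_add_right h
    simp only [add_sub_cancel_right] at h8
    refine (intervalIntegrable_congr ?_).1 h8
    intro t _
    exact (e t).symm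
  · simp only [e]
    rw [intervalIntegral.integral_comp_add_right g h]
    have s1 : ∫ t in (T + h)..(2 * T + h), g t = (∫ t in T..(2 * T), g t) -
        (∫ t in T..(T + h), g t) + ∫ t in (2 * T)..(2 * T + h), g t := by
      have a1 := intervalIntegral.integral_add_adjacent_intervals
        (hsub T (T + h) (by linarith) (by linarith) (by linarith))
        (hsub (T + h) (2 * T + h) (by linarith) (by linarith) (by linarith))
      have a2 := intervalIntegral.integral_add_adjacent_intervals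
        (hsub T (2 * T) (by linarith) (by linarith) (by linarith))
        (hsub (2 * T) (2 * T + h) (by linarith) (by linarith) (by linarith))
      linarith
    rw [s1]
    have s2 := hedge T le_rfl (by linarith)
    have s3 := hedge (2 * T) (by linarith) le_rfl
    have s4 : |∫ t in T..(2 * T), g t| ≤ C2 * T * (1 + V) ^ k := by
      have : ∀ t, g t = (pS t - Pp X t) * (Ap X β t).im ^ (2 * k + 1) := fun t => by
        simp only [hg, er]; ring
      simp only [this]
      exact h7
    rw [abs_le] at s2 s3 s4 ⊢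
    constructor
    · nlinarith [s2.1, s2.2, s3.1, s3.2, s4.1, s4.2]
    · nlinarith [s2.1, s2.2, s3.1, s3.2, s4.1, s4.2]

end

end Pool.Agent.U618.MV3
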