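import Pool.Agent.U618.MV3.A

set_option autoImplicit false

namespace Pool.Agent.U618.MV3

open Pool.Agent.U398.MV MeasureTheory Filter Topology Set Complex

noncomputable section

/-- cosine sum over the primes -/
def cs (X : ℕ) (s : ℝ) : ℝ :=
  ∑ p ∈ (Finset.Icc 1 X).filter Nat.Prime, Real.cos (s * Real.log p) / p

/-- log of zeta near the line one -/
def lz (σ s : ℝ) : ℝ := Real.log ‖riemannZeta (((1 + σ : ℝ) : ℂ) + s * I)‖

lemma cpow_I_re {p : ℕ} (hp : 0 < p) (s : ℝ) :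
    ((p : ℂ) ^ (-(s * I))).re = Real.cos (s * Real.log p) ∧
    ((p : ℂ) ^ (-(s * I))).im = -Real.sin (s * Real.log p) := by
  have hp0 : (p : ℂ) ≠ 0 := Nat.cast_ne_zero.2 hp.ne'
  have h1 : (p : ℂ) ^ (-(s * I)) = cexp (((-(s * Real.log p) : ℝ) : ℂ) * I) := by
    rw [Complex.cpow_def_of_ne_zero hp0, ← Complex.natCast_log]
    congr 1; push_cast; ring
  rw [h1]
  constructor
  · rw [Complex.exp_ofReal_mul_I_re, Real.cos_neg]
  · rw [Complex.exp_ofReal_mul_I_im, Real.sin_neg]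

lemma norm_alf_sq {n : ℕ} (a h : Fin n → ℝ) {p : ℕ} (hp : 0 < p) :
    ‖alf a h p‖ ^ 2 = ∑ i, ∑ j, a i * a j * Real.cos ((h i - h j) * Real.log p) := by
  have h1 : (alf a h p).re = ∑ i, a i * Real.cos (h i * Real.log p) := by
    unfold alf
    rw [Complex.re_sum]
    exact Finset.sum_congr rfl fun i _ => by rw [Complex.re_ofReal_mul, (cpow_I_re hp _).1]
  have h2 : (alf a h p).im = -∑ i, a i * Real.sin (h i * Real.log p) := by
    unfold alf
    rw [Complex.im_sum, ← Finset.sum_neg_distrib]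
    exact Finset.sum_congr rfl fun i _ => by rw [Complex.im_ofReal_mul, (cpow_I_re hp _).2]; ring
  rw [← Complex.normSq_eq_norm_sq, Complex.normSq_apply, h1, h2, neg_mul_neg,
    Finset.sum_mul_sum, Finset.sum_mul_sum, ← Finset.sum_add_distrib]
  refine Finset.sum_congr rfl fun i _ => ?_
  rw [← Finset.sum_add_distrib]
  refine Finset.sum_congr rfl fun j _ => ?_
  rw [sub_mul, Real.cos_sub]; ring

lemma Vq_alf {n : ℕ} (X : ℕ) (a h : Fin n → ℝ) :
    Vq X (alf a h) = ∑ i, ∑ j, a i * a j * cs X (h i - h j) := by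
  unfold Vq cs
  have : ∀ p ∈ (Finset.Icc 1 X).filter Nat.Prime, ‖alf a h p‖ ^ 2 / (p : ℝ) =
      ∑ i, ∑ j, a i * a j * (Real.cos ((h i - h j) * Real.log p) / p) := by
    intro p hp
    rw [norm_alf_sq a h (Finset.mem_filter.1 hp).2.pos, Finset.sum_div]
    refine Finset.sum_congr rfl fun i _ => ?_
    rw [Finset.sum_div]
    exact Finset.sum_congr rfl fun j _ => by ring
  rw [Finset.sum_congr rfl this, Finset.sum_comm]
  refine Finset.sum_congr rfl fun i _ => ?_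
  rw [Finset.sum_comm]
  exact Finset.sum_congr rfl fun j _ => by rw [Finset.mul_sum]

lemma cs_neg (X : ℕ) (s : ℝ) : cs X (-s) = cs X s := by
  unfold cs
  exact Finset.sum_congr rfl fun p _ => by rw [neg_mul, Real.cos_neg]

lemma lz_neg (σ s : ℝ) : lz σ (-s) = lz σ s := by
  unfold lz
  have : (((1 + σ : ℝ) : ℂ) + ((-s : ℝ) : ℂ) * I) =
      (starRingEnd ℂ) (((1 + σ : ℝ) : ℂ) + s * I) := by
    simp
  rw [this, riemannZeta_conj, RCLike.norm_conj]

lemma prs (hPRS : S_PRS) : ∃ C : ℝ, 0 < C ∧ ∀ x : ℝ, 3 ≤ x → ∀ s : ℝ,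
    |cs ⌊x⌋₊ s - lz (1 / Real.log x) s| ≤ C := by
  obtain ⟨C, hC, h⟩ := hPRS
  refine ⟨C, hC, fun x hx s => ?_⟩
  rcases le_total 0 s with hs | hs
  · exact h x hx s hs
  · have := h x hx (-s) (by linarith)
    rw [← cs_neg, ← lz_neg]
    exact this

lemma cs_mono {X Y : ℕ} (hXY : X ≤ Y) (s : ℝ) : |cs Y s - cs X s| ≤ cs Y 0 - cs X 0 := by
  unfold cs
  have hsub : (Finset.Icc 1 X).filter Nat.Prime ⊆ (Finset.Icc 1 Y).filter Nat.Prime :=
    Finset.filter_subset_filter _ (Finset.Icc_subset_Icc_right hXY)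
  rw [← Finset.sum_sdiff hsub, ← Finset.sum_sdiff hsub (f := fun p : ℕ => Real.cos (0 * Real.log p) / (p:ℝ)),
    add_sub_cancel_right, add_sub_cancel_right]
  refine (Finset.abs_sum_le_sum_abs _ _).trans (Finset.sum_le_sum fun p _ => ?_)
  rw [abs_div, zero_mul, Real.cos_zero, Nat.abs_cast]
  gcongr
  exact Real.abs_cos_le_one _

lemma zeta_near : ∃ ε : ℝ, 0 < ε ∧ ∀ σ : ℝ, 0 < σ → σ < ε →
    -Real.log (2 * σ) ≤ lz σ 0 ∧ lz σ 0 ≤ -Real.log (σ / 2) := by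
  have h1 := riemannZeta_residue_one
  have h2 : Tendsto (fun σ : ℝ => ((1 + σ : ℝ) : ℂ)) (𝓝[>] 0) (𝓝[≠] 1) := by
    refine tendsto_nhdsWithin_iff.2 ⟨?_, ?_⟩
    · have : Tendsto (fun σ : ℝ => ((1 + σ : ℝ) : ℂ)) (𝓝 0) (𝓝 ((1 + 0 : ℝ) : ℂ)) := by
        apply Continuous.tendsto; fun_prop
      simp only [add_zero, Complex.ofReal_one] at this
      exact this.mono_left nhdsWithin_le_nhds
    · filter_upwards [self_mem_nhdsWithin] with σ hσ
      intro h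
      have h' : ((1 + σ : ℝ) : ℂ) = ((1 : ℝ) : ℂ) := by simpa using h
      have := Complex.ofReal_injective h'
      have hσ' : 0 < σ := hσ
      linarith
  have h3 := (h1.comp h2).norm
  rw [norm_one] at h3
  have h4 : ∀ᶠ σ : ℝ in 𝓝[>] 0, ‖(((1 + σ : ℝ) : ℂ) - 1) * riemannZeta ((1 + σ : ℝ) : ℂ)‖ ∈
      Set.Ioo (1 / 2 : ℝ) 2 :=
    h3.eventually (Ioo_mem_nhds (by norm_num) (by norm_num))
  rw [eventually_nhdsWithin_iff, Metric.eventually_nhds_iff] at h4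
  obtain ⟨ε, hε, h5⟩ := h4
  refine ⟨ε, hε, fun σ hσ hσε => ?_⟩
  have h6 := h5 (y := σ) (by rw [Real.dist_eq, sub_zero, abs_of_pos hσ]; exact hσε) hσ
  have e1 : (((1 + σ : ℝ) : ℂ) - 1) = ((σ : ℝ) : ℂ) := by push_cast; ring
  rw [e1, norm_mul, Complex.norm_real, Real.norm_of_nonneg hσ.le] at h6
  unfold lz
  have e2 : (((1 + σ : ℝ) : ℂ) + ((0 : ℝ) : ℂ) * I) = ((1 + σ : ℝ) : ℂ) := by simp
  rw [e2]
  set z := ‖riemannZeta ((1 + σ : ℝ) : ℂ)‖ with hz
  obtain ⟨h7, h8⟩ := h6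
  have hz0 : 0 < z := by
    by_contra hcon
    have : z ≤ 0 := not_lt.1 hcon
    nlinarith
  constructor
  · rw [← Real.log_inv]
    apply Real.log_le_log (by positivity)
    rw [inv_le_iff_one_le_mul₀ (by positivity)]
    nlinarith
  · rw [← Real.log_inv]
    apply Real.log_le_log hz0
    rw [inv_div, le_div_iff₀ hσ]
    nlinarith

lemma var_cmp (hPRS : S_PRS) (δ : ℝ) (hδ : 0 < δ) (hδ1 : δ ≤ 1) : ∃ C T0 : ℝ, 0 < C ∧ 16 ≤ T0 ∧
    ∀ T : ℝ, T0 ≤ T → ∀ s : ℝ, |cs ⌊T ^ δ⌋₊ s - lz (1 / Real.log T) s| ≤ C := by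
  obtain ⟨C, hC, h⟩ := prs hPRS
  obtain ⟨ε, hε, hz⟩ := zeta_near
  -- T large
  have hlim : ∀ᶠ T : ℝ in atTop, 1 / ε < δ * Real.log T :=
    (Real.tendsto_log_atTop.const_mul_atTop hδ).eventually_gt_atTop _
  have hlim2 : ∀ᶠ T : ℝ in atTop, 3 ≤ T ^ δ :=
    (tendsto_rpow_atTop hδ).eventually_ge_atTop 3
  obtain ⟨T1, hT1⟩ := eventually_atTop.1 (hlim.and hlim2)
  refine ⟨3 * C + |Real.log (4 / δ)|, max T1 16, by positivity, le_max_right _ _, fun T hT s => ?_⟩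
  have hTa := hT1 T ((le_max_left _ _).trans hT)
  have hT16 : 16 ≤ T := (le_max_right _ _).trans hT
  obtain ⟨b1, b2⟩ := hTa
  set L := Real.log T with hL
  have hL0 : 0 < L := Real.log_pos (by linarith)
  have hlogx : Real.log (T ^ δ) = δ * L := Real.log_rpow (by linarith) δ
  have hXY : ⌊T ^ δ⌋₊ ≤ ⌊T⌋₊ := by
    apply Nat.floor_le_floor
    calc T ^ δ ≤ T ^ (1:ℝ) := Real.rpow_le_rpow_of_exponent_le (by linarith) hδ1
      _ = T := Real.rpow_one T
  have c1 := h T (by linarith) s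
  have c2 := h T (by linarith) 0
  have c3 := h (T ^ δ) b2 0
  rw [hlogx] at c3
  have hδL : 0 < δ * L := by positivity
  have s1 : 0 < 1 / (δ * L) := by positivity
  have s2 : 1 / (δ * L) < ε := by
    rw [div_lt_iff₀ hδL]
    rw [div_lt_iff₀ hε] at b1
    linarith
  have s3 : 1 / L ≤ 1 / (δ * L) := by
    apply one_div_le_one_div_of_le hδL
    nlinarith
  have z1 := (hz _ s1 s2).1
  have z2 := (hz (1 / L) (by positivity) (lt_of_le_of_lt s3 s2)).2
  have z3 : lz (1 / L) 0 - lz (1 / (δ * L)) 0 ≤ Real.log (4 / δ) := by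
    have e1 : Real.log (4 / δ) = -Real.log (1 / L / 2) + Real.log (2 * (1 / (δ * L))) := by
      rw [← Real.log_inv, ← Real.log_mul (by positivity) (by positivity)]
      congr 1; field_simp; norm_num
    linarith
  have c4 := cs_mono hXY s
  have c5 := le_abs_self (Real.log (4 / δ))
  rw [abs_le] at c1 c2 c3 c4 ⊢
  constructor
  · linarith [c1.1, c1.2, c2.1, c2.2, c3.1, c3.2, c4.1, c4.2]
  · linarith [c1.1, c1.2, c2.1, c2.2, c3.1, c3.2, c4.1, c4.2]

lemma var (hPRS : S_PRS) (δ : ℝ) (hδ : 0 < δ) (hδ1 : δ ≤ 1) : ∃ C T0 : ℝ, 0 < C ∧ 16 ≤ T0 ∧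
    ∀ T : ℝ, T0 ≤ T → ∀ (n : ℕ) (a h : Fin n → ℝ), (∑ i, |a i|) ≤ 1 →
    |Vq ⌊T ^ δ⌋₊ (alf a h) / (2 * Real.pi ^ 2) - Vh T a h| ≤ C := by
  obtain ⟨C, T0, hC, hT0, H⟩ := var_cmp hPRS δ hδ hδ1
  refine ⟨C, T0, hC, hT0, fun T hT n a h ha => ?_⟩
  set X := ⌊T ^ δ⌋₊ with hX
  have e : Vq X (alf a h) / (2 * Real.pi ^ 2) - Vh T a h =
      ∑ i, ∑ j, a i * a j * ((cs X (h i - h j) - lz (1 / Real.log T) (h i - h j)) /
        (2 * Real.pi ^ 2)) := by
    rw [Vq_alf]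
    unfold Vh
    rw [Finset.sum_div, ← Finset.sum_sub_distrib]
    refine Finset.sum_congr rfl fun i _ => ?_
    rw [Finset.sum_div, ← Finset.sum_sub_distrib]
    refine Finset.sum_congr rfl fun j _ => ?_
    unfold lz
    ring
  rw [e]
  have hpi : 1 ≤ 2 * Real.pi ^ 2 := by nlinarith [Real.pi_gt_three]
  calc |∑ i, ∑ j, a i * a j * ((cs X (h i - h j) - lz (1 / Real.log T) (h i - h j)) /
        (2 * Real.pi ^ 2))|
      ≤ ∑ i, |∑ j, a i * a j * ((cs X (h i - h j) - lz (1 / Real.log T) (h i - h j)) /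
        (2 * Real.pi ^ 2))| := Finset.abs_sum_le_sum_abs _ _
    _ ≤ ∑ i, ∑ j, |a i| * |a j| * C := by
        refine Finset.sum_le_sum fun i _ => (Finset.abs_sum_le_sum_abs _ _).trans
          (Finset.sum_le_sum fun j _ => ?_)
        rw [abs_mul, abs_mul, abs_div, abs_of_pos (by positivity : (0:ℝ) < 2 * Real.pi ^ 2)]
        gcongr
        rw [div_le_iff₀ (by positivity)]
        have := H T hT (h i - h j)
        nlinarith
    _ = (∑ i, |a i|) * (∑ j, |a j|) * C := by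
        rw [Finset.sum_mul_sum, Finset.sum_mul]
        exact Finset.sum_congr rfl fun i _ => by rw [Finset.sum_mul]
    _ ≤ 1 * 1 * C := by
        have : 0 ≤ ∑ i, |a i| := Finset.sum_nonneg fun i _ => abs_nonneg _
        gcongr
    _ = C := by ring

end

end Pool.Agent.U618.MV3
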