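import Pool.Agent.U618.MV3.C
import Pool.Agent.U618.MV3.D

set_option autoImplicit false

namespace Pool.Agent.U618.MV3

open Pool.Agent.U398.MV MeasureTheory Filter Topology Set Complex

noncomputable section

lemma even_int {T : ℝ} (hT : 0 < T) {P E N : ℝ → ℝ} (k : ℕ) {c M b0 b1 b2 b3 : ℝ} (hc0 : 0 < c)
    (hc : ∀ x y : ℝ, |(x + y) ^ (2 * k + 2) - x ^ (2 * k + 2) -
      ((2 * k + 2 : ℕ) : ℝ) * x ^ (2 * k + 1) * y| ≤ c * (|x| ^ (2 * k) * |y| ^ 2 + |y| ^ (2 * k + 2)))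
    (hP : Continuous P) (hE : AEStronglyMeasurable E volume) (hN : ∀ t, |P t| ≤ N t)
    (i1 : IntervalIntegrable (fun t => P t ^ (2 * k + 1) * E t) volume T (2 * T))
    (i2 : IntervalIntegrable (fun t => |E t| ^ (1 + 1) * N t ^ (2 * k)) volume T (2 * T))
    (i3 : IntervalIntegrable (fun t => |E t| ^ (2 * k + 1 + 1) * N t ^ (2 * 0)) volume T (2 * T))
    (B0 : |(∫ t in T..(2 * T), P t ^ (2 * (k + 1))) - M| ≤ b0)
    (B1 : |∫ t in T..(2 * T), P t ^ (2 * k + 1) * E t| ≤ b1)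
    (B2 : ∫ t in T..(2 * T), |E t| ^ (1 + 1) * N t ^ (2 * k) ≤ b2)
    (B3 : ∫ t in T..(2 * T), |E t| ^ (2 * k + 1 + 1) * N t ^ (2 * 0) ≤ b3) :
    |(∫ t in T..(2 * T), (P t + E t) ^ (2 * k + 2)) - M| ≤
      b0 + ((2 * k + 2 : ℕ) : ℝ) * b1 + c * (b2 + b3) := by
  have hTT : T ≤ 2 * T := by linarith
  set R : ℝ → ℝ := fun t => (P t + E t) ^ (2 * k + 2) - P t ^ (2 * k + 2) -
      ((2 * k + 2 : ℕ) : ℝ) * P t ^ (2 * k + 1) * E t with hR
  set S : ℝ → ℝ := fun t => c * (|E t| ^ (1 + 1) * N t ^ (2 * k) +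
    |E t| ^ (2 * k + 1 + 1) * N t ^ (2 * 0)) with hS
  have hRS : ∀ t, |R t| ≤ S t := by
    intro t
    refine (hc (P t) (E t)).trans ?_
    simp only [hS]
    refine mul_le_mul_of_nonneg_left ?_ hc0.le
    have h1 : |P t| ^ (2 * k) ≤ N t ^ (2 * k) := pow_le_pow_left₀ (abs_nonneg _) (hN t) _
    have h2 : 0 ≤ |E t| ^ 2 := by positivity
    have h3 := mul_le_mul_of_nonneg_right h1 h2
    simp only [mul_zero, pow_zero, mul_one]
    have e1 : |E t| ^ (1 + 1) = |E t| ^ 2 := by norm_num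
    rw [e1, mul_comm (|E t| ^ 2) (N t ^ (2 * k))]
    linarith
  have iS : IntervalIntegrable S volume T (2 * T) := (i2.add i3).const_mul c
  have mR : AEStronglyMeasurable R volume := by
    refine AEStronglyMeasurable.sub (AEStronglyMeasurable.sub ?_ ?_) ?_
    · exact (hP.aestronglyMeasurable.add hE).pow _
    · exact (hP.pow _).aestronglyMeasurable
    · exact ((continuous_const.mul (hP.pow _)).aestronglyMeasurable).mul hE
  have iR : IntervalIntegrable R volume T (2 * T) := by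
    rw [intervalIntegrable_iff_integrableOn_Ioc_of_le hTT] at iS ⊢
    exact Integrable.mono' iS mR.restrict (Filter.Eventually.of_forall fun t => hRS t)
  have iP : IntervalIntegrable (fun t => P t ^ (2 * k + 2)) volume T (2 * T) :=
    (hP.pow _).intervalIntegrable _ _
  have iC : IntervalIntegrable (fun t => ((2 * k + 2 : ℕ) : ℝ) * (P t ^ (2 * k + 1) * E t)) volume
      T (2 * T) := i1.const_mul _
  have e1 : ∀ t, (P t + E t) ^ (2 * k + 2) =
      R t + (P t ^ (2 * k + 2) + ((2 * k + 2 : ℕ) : ℝ) * (P t ^ (2 * k + 1) * E t)) := by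
    intro t; simp only [hR]; ring
  have e2 : ∫ t in T..(2 * T), (P t + E t) ^ (2 * k + 2) = (∫ t in T..(2 * T), R t) +
      ((∫ t in T..(2 * T), P t ^ (2 * k + 2)) +
        ((2 * k + 2 : ℕ) : ℝ) * ∫ t in T..(2 * T), (P t ^ (2 * k + 1) * E t)) := by
    simp only [e1]
    rw [intervalIntegral.integral_add iR (iP.add iC), intervalIntegral.integral_add iP iC,
      intervalIntegral.integral_const_mul]
  have e3 : |∫ t in T..(2 * T), R t| ≤ c * (b2 + b3) := by
    calc |∫ t in T..(2 * T), R t| ≤ ∫ t in T..(2 * T), |R t| :=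
          intervalIntegral.abs_integral_le_integral_abs hTT
      _ ≤ ∫ t in T..(2 * T), S t :=
          intervalIntegral.integral_mono_on hTT iR.abs iS fun t _ => hRS t
      _ = c * ((∫ t in T..(2 * T), |E t| ^ (1 + 1) * N t ^ (2 * k)) +
          ∫ t in T..(2 * T), |E t| ^ (2 * k + 1 + 1) * N t ^ (2 * 0)) := by
          simp only [hS]
          rw [intervalIntegral.integral_const_mul, intervalIntegral.integral_add i2 i3]
      _ ≤ _ := by gcongr
  have e4 : |((2 * k + 2 : ℕ) : ℝ) * ∫ t in T..(2 * T), (P t ^ (2 * k + 1) * E t)| ≤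
      ((2 * k + 2 : ℕ) : ℝ) * b1 := by
    rw [abs_mul, Nat.abs_cast]; gcongr
  have B0' : |(∫ t in T..(2 * T), P t ^ (2 * k + 2)) - M| ≤ b0 := B0
  rw [e2]
  rw [abs_le] at e3 e4 B0' ⊢
  constructor
  · linarith [e3.1, e3.2, e4.1, e4.2, B0'.1, B0'.2]
  · linarith [e3.1, e3.2, e4.1, e4.2, B0'.1, B0'.2]

lemma odd_int {T : ℝ} (hT : 0 < T) {P E N : ℝ → ℝ} (k : ℕ) {c b0 b2 b3 : ℝ} (hc0 : 0 < c)
    (hc : ∀ x y : ℝ, |(x + y) ^ (2 * k + 1) - x ^ (2 * k + 1)| ≤
      c * (|x| ^ (2 * k) * |y| + |y| ^ (2 * k + 1)))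
    (hP : Continuous P) (hE : AEStronglyMeasurable E volume) (hN : ∀ t, |P t| ≤ N t)
    (i2 : IntervalIntegrable (fun t => |E t| ^ (0 + 1) * N t ^ (2 * k)) volume T (2 * T))
    (i3 : IntervalIntegrable (fun t => |E t| ^ (2 * k + 1) * N t ^ (2 * 0)) volume T (2 * T))
    (B0 : |∫ t in T..(2 * T), P t ^ (2 * k + 1)| ≤ b0)
    (B2 : ∫ t in T..(2 * T), |E t| ^ (0 + 1) * N t ^ (2 * k) ≤ b2)
    (B3 : ∫ t in T..(2 * T), |E t| ^ (2 * k + 1) * N t ^ (2 * 0) ≤ b3) :
    |∫ t in T..(2 * T), (P t + E t) ^ (2 * k + 1)| ≤ b0 + c * (b2 + b3) := by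
  have hTT : T ≤ 2 * T := by linarith
  set R : ℝ → ℝ := fun t => (P t + E t) ^ (2 * k + 1) - P t ^ (2 * k + 1) with hR
  set S : ℝ → ℝ := fun t => c * (|E t| ^ (0 + 1) * N t ^ (2 * k) +
    |E t| ^ (2 * k + 1) * N t ^ (2 * 0)) with hS
  have hRS : ∀ t, |R t| ≤ S t := by
    intro t
    refine (hc (P t) (E t)).trans ?_
    simp only [hS]
    refine mul_le_mul_of_nonneg_left ?_ hc0.le
    have h1 : |P t| ^ (2 * k) ≤ N t ^ (2 * k) := pow_le_pow_left₀ (abs_nonneg _) (hN t) _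
    have h2 : 0 ≤ |E t| := by positivity
    have h3 := mul_le_mul_of_nonneg_right h1 h2
    simp only [mul_zero, pow_zero, mul_one, zero_add, pow_one]
    rw [mul_comm (|E t|) (N t ^ (2 * k))]
    linarith
  have iS : IntervalIntegrable S volume T (2 * T) := (i2.add i3).const_mul c
  have mR : AEStronglyMeasurable R volume := by
    refine AEStronglyMeasurable.sub ?_ ?_
    · exact (hP.aestronglyMeasurable.add hE).pow _
    · exact (hP.pow _).aestronglyMeasurable
  have iR : IntervalIntegrable R volume T (2 * T) := by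
    rw [intervalIntegrable_iff_integrableOn_Ioc_of_le hTT] at iS ⊢
    exact Integrable.mono' iS mR.restrict (Filter.Eventually.of_forall fun t => hRS t)
  have iP : IntervalIntegrable (fun t => P t ^ (2 * k + 1)) volume T (2 * T) :=
    (hP.pow _).intervalIntegrable _ _
  have e1 : ∀ t, (P t + E t) ^ (2 * k + 1) = R t + P t ^ (2 * k + 1) := by
    intro t; simp only [hR]; ring
  have e2 : ∫ t in T..(2 * T), (P t + E t) ^ (2 * k + 1) = (∫ t in T..(2 * T), R t) +
      (∫ t in T..(2 * T), P t ^ (2 * k + 1)) := by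
    simp only [e1]
    rw [intervalIntegral.integral_add iR iP]
  have e3 : |∫ t in T..(2 * T), R t| ≤ c * (b2 + b3) := by
    calc |∫ t in T..(2 * T), R t| ≤ ∫ t in T..(2 * T), |R t| :=
          intervalIntegral.abs_integral_le_integral_abs hTT
      _ ≤ ∫ t in T..(2 * T), S t :=
          intervalIntegral.integral_mono_on hTT iR.abs iS fun t _ => hRS t
      _ = c * ((∫ t in T..(2 * T), |E t| ^ (0 + 1) * N t ^ (2 * k)) +
          ∫ t in T..(2 * T), |E t| ^ (2 * k + 1) * N t ^ (2 * 0)) := by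
          simp only [hS]
          rw [intervalIntegral.integral_const_mul, intervalIntegral.integral_add i2 i3]
      _ ≤ _ := by gcongr
  rw [e2]
  rw [abs_le] at e3 B0 ⊢
  constructor
  · linarith [e3.1, e3.2, B0.1, B0.2]
  · linarith [e3.1, e3.2, B0.1, B0.2]

lemma cmp_pow {V v w Cv : ℝ} (k : ℕ) (hCv : 0 < Cv) (hV : 0 ≤ V) (hv : v = V / (2 * Real.pi ^ 2))
    (h : |v - w| ≤ Cv) :
    |v ^ (k + 1) - w ^ (k + 1)| ≤ (k + 1) * Cv * (1 + Cv) ^ k * (1 + |w|) ^ k ∧
    (1 + V) ^ k ≤ (21 + 20 * Cv) ^ k * (1 + |w|) ^ k := by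
  have hpi : Real.pi ^ 2 ≤ 10 := by
    have := Real.pi_lt_d2
    have := Real.pi_pos
    nlinarith
  have hpi0 : 0 < Real.pi ^ 2 := by positivity
  have hvw : |v| ≤ |w| + Cv := by
    have := abs_sub_abs_le_abs_sub v w
    linarith
  have hw := abs_nonneg w
  constructor
  · have h1 := abs_pow_sub_pow_le v w (k + 1)
    refine h1.trans ?_
    have h2 : max |v| |w| ≤ (1 + Cv) * (1 + |w|) := by
      apply max_le <;> nlinarith
    have h3 : max |v| |w| ^ (k + 1 - 1) ≤ ((1 + Cv) * (1 + |w|)) ^ k := by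
      rw [Nat.add_sub_cancel]
      exact pow_le_pow_left₀ (le_max_of_le_left (abs_nonneg _)) h2 _
    calc |v - w| * ((k + 1 : ℕ) : ℝ) * max |v| |w| ^ (k + 1 - 1)
        ≤ Cv * ((k + 1 : ℕ) : ℝ) * ((1 + Cv) * (1 + |w|)) ^ k := by
          have : 0 ≤ max |v| |w| ^ (k + 1 - 1) := by positivity
          gcongr
      _ = _ := by push_cast; rw [mul_pow]; ring
  · rw [← mul_pow]
    refine pow_le_pow_left₀ (by linarith) ?_ _
    have hVv : V = v * (2 * Real.pi ^ 2) := by rw [hv]; field_simp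
    have h3 : V ≤ (|w| + Cv) * 20 := by
      rw [hVv]
      have h4 : v ≤ |w| + Cv := (le_abs_self v).trans hvw
      have h5 : 0 ≤ |w| + Cv := by positivity
      calc v * (2 * Real.pi ^ 2) ≤ (|w| + Cv) * (2 * Real.pi ^ 2) := by gcongr
        _ ≤ (|w| + Cv) * 20 := by
            apply mul_le_mul_of_nonneg_left _ h5
            linarith
    nlinarith

end

end Pool.Agent.U618.MV3
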